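import Pool.Agent.D0H94.T13.StmD
import Pool.Agent.D0H74.FM.Conc

/-! Project FM, module SHARP: limit of the double mixture. -/

set_option autoImplicit false

open Filter Topology Finset

namespace Pool.Agent.D0H81.FM

open Pool.Agent.D0H94.T13

/-- in the window the ratio tends to `c` -/
theorem win {X : Type*} {l : Filter X} {u v : X → ℕ} {c L : ℝ} (hc : 0 < c)
    (hv : Tendsto v l atTop)
    (h : ∀ᶠ x in l, |(u x : ℝ) - c * v x| ≤ L * (√(v x : ℝ) * Real.log (v x))) :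
    Tendsto (fun x => (u x : ℝ) / v x) l (𝓝 c) ∧ Tendsto u l atTop := by
  have hlog : Tendsto (fun n : ℕ => L * (Real.log n / √(n : ℝ))) atTop (𝓝 0) := by
    have h1 : Tendsto (fun x : ℝ => Real.log x / x ^ (1 / 2 : ℝ)) atTop (𝓝 0) :=
      (isLittleO_log_rpow_atTop (by norm_num)).tendsto_div_nhds_zero
    have h2 := (h1.comp tendsto_natCast_atTop_atTop).const_mul L
    rw [mul_zero] at h2
    refine h2.congr fun n => ?_
    simp only [Function.comp_apply, Real.sqrt_eq_rpow]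
  have hr : Tendsto (fun x => (u x : ℝ) / v x) l (𝓝 c) := by
    rw [tendsto_iff_norm_sub_tendsto_zero]
    refine squeeze_zero' (Eventually.of_forall fun x => norm_nonneg _) ?_ (hlog.comp hv)
    filter_upwards [h, hv.eventually (eventually_ge_atTop 1)] with x hx hx1
    have hv0 : (0 : ℝ) < v x := by exact_mod_cast hx1
    have hs : 0 < √(v x : ℝ) := Real.sqrt_pos.mpr hv0
    rw [Real.norm_eq_abs]
    have e : (u x : ℝ) / v x - c = (u x - c * v x) / v x := by field_simp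
    rw [e, abs_div, abs_of_pos hv0, div_le_iff₀ hv0]
    refine hx.trans (le_of_eq ?_)
    have e2 : √(v x : ℝ) * √(v x : ℝ) = (v x : ℝ) := Real.mul_self_sqrt hv0.le
    show L * (√(v x : ℝ) * Real.log (v x)) = L * (Real.log (v x) / √(v x : ℝ)) * v x
    have e3 : Real.log (v x) / √(v x : ℝ) * v x = √(v x : ℝ) * Real.log (v x) := by
      rw [div_mul_eq_mul_div, div_eq_iff hs.ne']
      linear_combination (-(Real.log (v x))) * e2
    rw [mul_assoc, e3]
  refine ⟨hr, ?_⟩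
  rw [← tendsto_natCast_atTop_iff (R := ℝ)]
  have hv' : Tendsto (fun x => (v x : ℝ)) l atTop := tendsto_natCast_atTop_atTop.comp hv
  refine (hr.pos_mul_atTop hc hv').congr' ?_
  filter_upwards [hv.eventually (eventually_ge_atTop 1)] with x hx1
  have hv0 : (v x : ℝ) ≠ 0 := by
    have : (0 : ℝ) < v x := by exact_mod_cast hx1
    exact this.ne'
  exact div_mul_cancel₀ _ hv0

theorem kc_le (m n : ℕ) (hn : 1 ≤ n) : kc m (n - 1) ≤ kc (m + 1) (n + 1) := by
  unfold kc
  split_ifs with h1 h2 h2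
  · have e : n + 1 - 2 * (m + 1) = n - 1 - 2 * m := by omega
    rw [e]
    exact Nat.choose_le_choose _ (Nat.le_succ m)
  · omega
  · exact Nat.zero_le _
  · exact le_rfl

/-- the ratio -/
noncomputable def R (n m : ℕ) : ℝ := (kc m (n - 1) : ℝ) / kc (m + 1) (n + 1)

theorem R_nonneg (n m : ℕ) : 0 ≤ R n m := by unfold R; positivity

theorem R_le (n m : ℕ) (hn : 1 ≤ n) : R n m ≤ 1 := by
  unfold R
  apply div_le_one_of_le₀
  · exact_mod_cast kc_le m n hn
  · positivity

theorem R_mul (n m : ℕ) (hn : 1 ≤ n) : (kc m (n - 1) : ℝ) = R n m * kc (m + 1) (n + 1) := by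
  unfold R
  by_cases h0 : kc (m + 1) (n + 1) = 0
  · have h1 := kc_le m n hn
    have h2 : kc m (n - 1) = 0 := by omega
    rw [h0, h2]
    simp
  · have h1 : (kc (m + 1) (n + 1) : ℝ) ≠ 0 := by exact_mod_cast h0
    exact (div_mul_cancel₀ _ h1).symm

theorem R_eq (n m : ℕ) (h1 : 2 * m + 1 < n) (h2 : n < 3 * m + 1) :
    R n m = 3 - ((n : ℝ) + 1) / ((m : ℝ) + 1) := by
  obtain ⟨j, hj⟩ : ∃ j, n = 2 * m + 1 + j := ⟨n - (2 * m + 1), by omega⟩
  subst hj
  have hjm : j ≤ m + 1 := by omega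
  have e1 : kc m (2 * m + 1 + j - 1) = m.choose j := by
    unfold kc
    rw [if_pos (by omega)]
    congr 1
    omega
  have e2 : kc (m + 1) (2 * m + 1 + j + 1) = (m + 1).choose j := by
    unfold kc
    rw [if_pos (by omega)]
    congr 1
    omega
  have h3 := Nat.choose_mul_succ_eq m j
  have h4 : ((m.choose j : ℕ) : ℝ) * ((m : ℝ) + 1) = ((m + 1).choose j : ℝ) * ((m : ℝ) + 1 - j) := by
    have h5 : ((m.choose j * (m + 1) : ℕ) : ℝ) = (((m + 1).choose j * (m + 1 - j) : ℕ) : ℝ) := by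
      rw [h3]
    rw [Nat.cast_mul, Nat.cast_mul, Nat.cast_sub hjm] at h5
    push_cast at h5
    exact h5
  have h6 : (0 : ℝ) < ((m + 1).choose j : ℝ) := by exact_mod_cast Nat.choose_pos hjm
  unfold R
  rw [e1, e2, div_eq_iff h6.ne']
  have h7 : (m : ℝ) + 1 ≠ 0 := by positivity
  push_cast
  field_simp
  linear_combination h4

theorem bound (S : Finset ℕ) (w φ : ℕ → ℝ) (T : ℕ → ℕ → ℝ) (τ ε D : ℝ)
    (hw : ∀ m ∈ S, 0 ≤ w m) (hs : ∑ m ∈ S, w m = 1)
    (hT : ∀ m ∈ S, ∀ m' ∈ S, |T m m' - τ| ≤ ε + (φ m + φ m') * D) :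
    |∑ m ∈ S, ∑ m' ∈ S, w m * w m' * T m m' - τ| ≤ ε + 2 * (∑ m ∈ S, w m * φ m) * D := by
  have e : ∑ m ∈ S, ∑ m' ∈ S, w m * w m' * T m m' - τ =
      ∑ m ∈ S, ∑ m' ∈ S, w m * w m' * (T m m' - τ) := by
    have e1 : ∑ m ∈ S, ∑ m' ∈ S, w m * w m' * τ = τ := by
      have e2 : ∀ m ∈ S, ∑ m' ∈ S, w m * w m' * τ = w m * τ := by
        intro m _
        rw [← Finset.sum_mul, ← Finset.mul_sum, hs, mul_one]
      rw [Finset.sum_congr rfl e2, ← Finset.sum_mul, hs, one_mul]
    simp only [mul_sub, Finset.sum_sub_distrib]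
    rw [e1]
  rw [e]
  calc |∑ m ∈ S, ∑ m' ∈ S, w m * w m' * (T m m' - τ)|
      ≤ ∑ m ∈ S, ∑ m' ∈ S, w m * w m' * (ε + (φ m + φ m') * D) := by
        refine (Finset.abs_sum_le_sum_abs _ _).trans (Finset.sum_le_sum fun m hm => ?_)
        refine (Finset.abs_sum_le_sum_abs _ _).trans (Finset.sum_le_sum fun m' hm' => ?_)
        have h1 := mul_nonneg (hw m hm) (hw m' hm')
        rw [abs_mul, abs_of_nonneg h1]
        exact mul_le_mul_of_nonneg_left (hT m hm m' hm') h1
    _ = ε + 2 * (∑ m ∈ S, w m * φ m) * D := by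
        have e2 : ∀ m ∈ S, ∑ m' ∈ S, w m * w m' * (ε + (φ m + φ m') * D) =
            w m * ε + w m * φ m * D + w m * ((∑ m ∈ S, w m * φ m) * D) := by
          intro m _
          have e3 : ∀ m' ∈ S, w m * w m' * (ε + (φ m + φ m') * D) =
              (w m * ε + w m * φ m * D) * w m' + w m * D * (w m' * φ m') := by
            intro m' _; ring
          rw [Finset.sum_congr rfl e3, Finset.sum_add_distrib, ← Finset.mul_sum,
            ← Finset.mul_sum, hs]
          ring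
        rw [Finset.sum_congr rfl e2, Finset.sum_add_distrib, Finset.sum_add_distrib,
          ← Finset.sum_mul, ← Finset.sum_mul, ← Finset.sum_mul, hs]
        ring

theorem err (c g τ : ℝ) (hc : 0 < c) :
    Tendsto (fun n : ℕ => 2 * Real.exp (-(1 * Real.log n ^ 2)) * ((c * n) ^ g + τ)) atTop (𝓝 0) := by
  have hl : Tendsto (fun n : ℕ => Real.log (n : ℝ)) atTop atTop :=
    Real.tendsto_log_atTop.comp tendsto_natCast_atTop_atTop
  have h1 : ∀ a b : ℝ, Tendsto (fun x : ℝ => Real.exp (x * (a - x) + b)) atTop (𝓝 0) := by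
    intro a b
    apply Real.tendsto_exp_atBot.comp
    apply tendsto_atBot_add_const_right
    apply Tendsto.atTop_mul_atBot₀ tendsto_id
    exact tendsto_atBot_add_const_left _ a (tendsto_neg_atTop_atBot)
  have h2 := ((h1 g (g * Real.log c)).comp hl).const_mul 2
  have h3 := ((h1 0 0).comp hl).const_mul (2 * τ)
  have h4 := h2.add h3
  rw [mul_zero, mul_zero, add_zero] at h4
  refine h4.congr' ?_
  filter_upwards [eventually_ge_atTop 1] with n hn
  have hn0 : (0 : ℝ) < n := by exact_mod_cast hn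
  simp only [Function.comp_apply]
  rw [Real.rpow_def_of_pos (by positivity), Real.log_mul hc.ne' hn0.ne']
  have e1 : Real.exp (Real.log n * (g - Real.log n) + g * Real.log c) =
      Real.exp (-(1 * Real.log n ^ 2)) * Real.exp ((Real.log c + Real.log n) * g) := by
    rw [← Real.exp_add]; congr 1; ring
  have e2 : Real.exp (Real.log n * (0 - Real.log n) + 0) = Real.exp (-(1 * Real.log n ^ 2)) := by
    congr 1; ring
  rw [e1, e2]
  ring

theorem t_SHARP : S_SHARP := by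
  intro μ ν hμ hν hμν h hpos hlow hup hsub g B hB hlim
  obtain ⟨L, hL, hC⟩ := Pool.Agent.D0H74.FM.t_CONC μ ν hμ hν hμν h hpos hlow hup 1 one_pos
  obtain ⟨c0, hc0, hlow'⟩ := hlow
  obtain ⟨δ, hδ, hZ⟩ := Pool.Agent.D0H74.FM.ZZ_lower hμ hν hμν h c0 hc0 hlow'
  have hμ0 : 0 < μ := by linarith
  have hZpos : ∀ n, 1 ≤ n → 0 < ZZ h n := fun n hn => lt_of_lt_of_le (by positivity) (hZ n hn)
  set c := (1 + μ) / (3 + 2 * μ) with hc
  have hcp : 0 < c := by positivity
  have hc3 : 0 < 3 * c - 1 := by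
    rw [hc, sub_pos, mul_div_assoc', lt_div_iff₀ (by positivity)]; linarith
  have hc2 : 0 < 1 - 2 * c := by
    rw [hc, sub_pos, mul_div_assoc', div_lt_iff₀ (by positivity)]; linarith
  set σ := μ / (1 + μ) with hσ
  have hσ0 : 0 < σ := by positivity
  have hσc : 3 - 1 / c = σ := by
    rw [hc, hσ]; field_simp; ring
  set τ := σ ^ 2 * (2 ^ g / B) with hτ
  have hτ0 : 0 < τ := by positivity
  let N : ℕ → ℕ → Prop := fun n m => |(m : ℝ) - c * n| < L * (√(n : ℝ) * Real.log n)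
  let F : Filter (ℕ × ℕ × ℕ) := comap Prod.fst atTop ⊓ 𝓟 {x | N x.1 x.2.1 ∧ N x.1 x.2.2}
  have hfst : Tendsto (fun x : ℕ × ℕ × ℕ => x.1) F atTop := tendsto_comap.mono_left inf_le_left
  have hN : ∀ᶠ x in F, N x.1 x.2.1 ∧ N x.1 x.2.2 := mem_inf_of_right (mem_principal_self _)
  obtain ⟨r1, i1⟩ := win (u := fun x : ℕ × ℕ × ℕ => x.2.1) hcp hfst (hN.mono fun x hx => hx.1.le)
  obtain ⟨r2, i2⟩ := win (u := fun x : ℕ × ℕ × ℕ => x.2.2) hcp hfst (hN.mono fun x hx => hx.2.le)
  have hinv : Tendsto (fun x : ℕ × ℕ × ℕ => 1 / (x.1 : ℝ)) F (𝓝 0) :=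
    (tendsto_one_div_atTop_nhds_zero_nat (𝕜 := ℝ)).comp hfst
  have hn0 : ∀ᶠ x in F, (0 : ℝ) < (x.1 : ℝ) := by
    filter_upwards [hfst.eventually (eventually_ge_atTop 1)] with x hx
    exact_mod_cast hx
  -- the ratios
  have hR : ∀ u : ℕ × ℕ × ℕ → ℕ, Tendsto (fun x => (u x : ℝ) / (x.1 : ℝ)) F (𝓝 c) →
      Tendsto (fun x => R x.1 (u x)) F (𝓝 σ) := by
    intro u hu
    have a1 : Tendsto (fun x => 1 - 2 * ((u x : ℝ) / (x.1 : ℝ)) - 1 / (x.1 : ℝ)) F
        (𝓝 (1 - 2 * c - 0)) := (tendsto_const_nhds.sub (hu.const_mul 2)).sub hinv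
    have a2 : Tendsto (fun x => 3 * ((u x : ℝ) / (x.1 : ℝ)) + 1 / (x.1 : ℝ) - 1) F
        (𝓝 (3 * c + 0 - 1)) := ((hu.const_mul 3).add hinv).sub tendsto_const_nhds
    have b1 := a1.eventually (lt_mem_nhds (show (0 : ℝ) < 1 - 2 * c - 0 by linarith))
    have b2 := a2.eventually (lt_mem_nhds (show (0 : ℝ) < 3 * c + 0 - 1 by linarith))
    have a3 : Tendsto (fun x => 3 - (1 + 1 / (x.1 : ℝ)) / ((u x : ℝ) / (x.1 : ℝ) + 1 / (x.1 : ℝ))) F
        (𝓝 (3 - (1 + 0) / (c + 0))) :=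
      tendsto_const_nhds.sub ((tendsto_const_nhds.add hinv).div (hu.add hinv) (by linarith))
    rw [add_zero, add_zero, hσc] at a3
    refine a3.congr' ?_
    filter_upwards [b1, b2, hn0] with x x1 x2 x0
    have c1 : 2 * u x + 1 < x.1 := by
      have : (0 : ℝ) < (1 - 2 * ((u x : ℝ) / (x.1 : ℝ)) - 1 / (x.1 : ℝ)) * x.1 := mul_pos x1 x0
      have e : (1 - 2 * ((u x : ℝ) / (x.1 : ℝ)) - 1 / (x.1 : ℝ)) * x.1 =
          (x.1 : ℝ) - 2 * u x - 1 := by field_simp
      rw [e] at this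
      have h2 : ((2 * u x + 1 : ℕ) : ℝ) < (x.1 : ℝ) := by push_cast; linarith
      exact_mod_cast h2
    have c2 : x.1 < 3 * u x + 1 := by
      have : (0 : ℝ) < (3 * ((u x : ℝ) / (x.1 : ℝ)) + 1 / (x.1 : ℝ) - 1) * x.1 := mul_pos x2 x0
      have e : (3 * ((u x : ℝ) / (x.1 : ℝ)) + 1 / (x.1 : ℝ) - 1) * x.1 =
          3 * u x + 1 - (x.1 : ℝ) := by field_simp
      rw [e] at this
      have h2 : (x.1 : ℝ) < ((3 * u x + 1 : ℕ) : ℝ) := by push_cast; linarith
      exact_mod_cast h2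
    rw [R_eq _ _ c1 c2]
    have : (u x : ℝ) + 1 ≠ 0 := by positivity
    field_simp
  have hR1 := hR _ r1
  have hR2 := hR _ r2
  -- the interaction
  have hG : Tendsto (fun x : ℕ × ℕ × ℕ => h (x.2.1 + x.2.2) / (h x.2.1 * h x.2.2) *
      (c * x.1) ^ g) F (𝓝 (2 ^ g / B)) := by
    have l1 := hlim.comp i1
    have l2 := hlim.comp i2
    have i3 : Tendsto (fun x : ℕ × ℕ × ℕ => x.2.1 + x.2.2) F atTop :=
      tendsto_atTop_mono (fun x => Nat.le_add_right _ _) i1
    have l3 := hlim.comp i3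
    have b1 : Tendsto (fun x : ℕ × ℕ × ℕ => (((x.2.1 : ℝ) / x.1 + (x.2.2 : ℝ) / x.1) * c /
        (((x.2.1 : ℝ) / x.1) * ((x.2.2 : ℝ) / x.1))) ^ g) F (𝓝 (((c + c) * c / (c * c)) ^ g)) := by
      refine Tendsto.rpow_const (((r1.add r2).mul_const c).div (r1.mul r2) (by positivity)) ?_
      left; positivity
    have e0 : (c + c) * c / (c * c) = 2 := by field_simp; ring
    rw [e0] at b1
    have b2 := (l3.div (l1.mul l2) (by positivity)).mul b1
    have e1 : B / (B * B) * 2 ^ g = 2 ^ g / B := by field_simp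
    rw [e1] at b2
    refine b2.congr' ?_
    filter_upwards [hn0, i1.eventually (eventually_ge_atTop 1),
      i2.eventually (eventually_ge_atTop 1)] with x x0 x1 x2
    have m1 : (0 : ℝ) < (x.2.1 : ℝ) := by exact_mod_cast x1
    have m2 : (0 : ℝ) < (x.2.2 : ℝ) := by exact_mod_cast x2
    have h1 := hpos x.2.1
    have h2 := hpos x.2.2
    have h3 := hpos (x.2.1 + x.2.2)
    simp only [Function.comp_apply, Pi.div_apply]
    have e2 : ((x.2.1 : ℝ) / x.1 + (x.2.2 : ℝ) / x.1) * c /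
        (((x.2.1 : ℝ) / x.1) * ((x.2.2 : ℝ) / x.1)) =
        (((x.2.1 + x.2.2 : ℕ) : ℝ)) * (c * x.1) / ((x.2.1 : ℝ) * x.2.2) := by
      push_cast
      field_simp
    rw [e2, Real.div_rpow (by positivity) (by positivity), Real.mul_rpow (by positivity)
      (by positivity), Real.mul_rpow m1.le m2.le, pow_add]
    have m3 : (0 : ℝ) < (((x.2.1 + x.2.2 : ℕ) : ℝ)) := by push_cast; positivity
    have p1 : (0 : ℝ) < (x.2.1 : ℝ) ^ g := Real.rpow_pos_of_pos m1 _
    have p2 : (0 : ℝ) < (x.2.2 : ℝ) ^ g := Real.rpow_pos_of_pos m2 _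
    have p3 : (0 : ℝ) < (((x.2.1 + x.2.2 : ℕ) : ℝ)) ^ g := Real.rpow_pos_of_pos m3 _
    have q1 : (0 : ℝ) < ν ^ x.2.1 := by positivity
    have q2 : (0 : ℝ) < ν ^ x.2.2 := by positivity
    field_simp
  have hT : Tendsto (fun x : ℕ × ℕ × ℕ => R x.1 x.2.1 * R x.1 x.2.2 *
      (h (x.2.1 + x.2.2) / (h x.2.1 * h x.2.2) * (c * x.1) ^ g)) F (𝓝 τ) := by
    have h1 := (hR1.mul hR2).mul hG
    have e1 : σ * σ * (2 ^ g / B) = τ := by rw [hτ]; ring
    rw [e1] at h1
    exact h1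
  rw [Metric.tendsto_nhds]
  intro ε hε
  have hev : ∀ᶠ x in F, |R x.1 x.2.1 * R x.1 x.2.2 *
      (h (x.2.1 + x.2.2) / (h x.2.1 * h x.2.2) * (c * x.1) ^ g) - τ| < ε / 2 := by
    have := (Metric.tendsto_nhds.1 hT) (ε / 2) (half_pos hε)
    simpa only [Real.dist_eq] using this
  rw [Filter.Eventually, mem_inf_principal, mem_comap] at hev
  obtain ⟨t, ht, hts⟩ := hev
  have herr := (err c g τ hcp).eventually (gt_mem_nhds (half_pos hε))
  filter_upwards [ht, herr, eventually_ge_atTop 2] with n hnt hn2 hn3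
  have hZn := hZpos n (by omega)
  have hnr : (0 : ℝ) < n := by
    have : 0 < n := by omega
    exact_mod_cast this
  have hcg : 0 < (c * n) ^ g := Real.rpow_pos_of_pos (by positivity) _
  set w : ℕ → ℝ := fun m => h m * kc (m + 1) (n + 1) / ZZ h n with hw
  set T : ℕ → ℕ → ℝ := fun m m' => R n m * R n m' * (h (m + m') / (h m * h m') * (c * n) ^ g)
    with hTd
  classical
  set φ : ℕ → ℝ := fun m => if N n m then 0 else 1 with hφ
  have hw0 : ∀ m, 0 ≤ w m := fun m => by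
    have := hpos m
    simp only [hw]; positivity
  have hw1 : ∑ m ∈ range (n + 1), w m = 1 := by
    simp only [hw]
    rw [← Finset.sum_div]
    exact div_self hZn.ne'
  have hDD : DD h n / ZZ h n ^ 2 * (c * n) ^ g =
      ∑ m ∈ range (n + 1), ∑ m' ∈ range (n + 1), w m * w m' * T m m' := by
    unfold DD
    rw [Finset.sum_div, Finset.sum_mul]
    refine Finset.sum_congr rfl fun m _ => ?_
    rw [Finset.sum_div, Finset.sum_mul]
    refine Finset.sum_congr rfl fun m' _ => ?_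
    rw [R_mul n m (by omega), R_mul n m' (by omega)]
    have h1 := hpos m
    have h2 := hpos m'
    simp only [hw, hTd]
    field_simp
  have hbd := bound (range (n + 1)) w φ T τ (ε / 2) ((c * n) ^ g + τ) (fun m _ => hw0 m) hw1 (by
    intro m _ m' _
    have hD : 0 < (c * (n : ℝ)) ^ g + τ := by positivity
    by_cases hnn : N n m ∧ N n m'
    · have h1 : ((n, m, m') : ℕ × ℕ × ℕ) ∈ Prod.fst ⁻¹' t := hnt
      have h2 := hts h1 hnn
      have h3 : |T m m' - τ| < ε / 2 := h2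
      have h4 : φ m = 0 := if_pos hnn.1
      have h5 : φ m' = 0 := if_pos hnn.2
      rw [h4, h5]
      linarith
    · have hφs : 1 ≤ φ m + φ m' := by
        simp only [hφ]
        by_cases h1 : N n m
        · have h2 : ¬ N n m' := fun h2 => hnn ⟨h1, h2⟩
          rw [if_pos h1, if_neg h2]; norm_num
        · rw [if_neg h1]
          split_ifs <;> norm_num
      have h1 := hpos m
      have h2 := hpos m'
      have hq : h (m + m') / (h m * h m') ≤ 1 := by
        rw [div_le_one (by positivity)]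
        exact hsub m m'
      have hq0 : 0 ≤ h (m + m') / (h m * h m') := by
        have := hpos (m + m')
        positivity
      have hRR : R n m * R n m' ≤ 1 :=
        mul_le_one₀ (R_le n m (by omega)) (R_nonneg n m') (R_le n m' (by omega))
      have hRR0 : 0 ≤ R n m * R n m' := mul_nonneg (R_nonneg n m) (R_nonneg n m')
      have hTle : T m m' ≤ (c * n) ^ g := by
        simp only [hTd]
        calc R n m * R n m' * (h (m + m') / (h m * h m') * (c * n) ^ g)
            ≤ 1 * (1 * (c * n) ^ g) := by gcongr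
          _ = _ := by ring
      have hT0 : 0 ≤ T m m' := by
        simp only [hTd]; positivity
      have h3 : |T m m' - τ| ≤ (c * n) ^ g + τ := by
        rw [abs_le]
        constructor <;> linarith
      nlinarith)
  have hfar : ∑ m ∈ range (n + 1), w m * φ m ≤ Real.exp (-(1 * Real.log n ^ 2)) := by
    have h1 := hC n hn3
    have e1 : ∑ m ∈ range (n + 1), w m * φ m =
        (∑ m ∈ (range (n + 1)).filter (fun m : ℕ => L * (√(n : ℝ) * Real.log n) ≤
          |(m : ℝ) - c * n|), h m * kc (m + 1) (n + 1)) / ZZ h n := by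
      rw [Finset.sum_filter, Finset.sum_div]
      refine Finset.sum_congr rfl fun m _ => ?_
      simp only [hw, hφ]
      by_cases h2 : N n m
      · have h3 : ¬ L * (√(n : ℝ) * Real.log n) ≤ |(m : ℝ) - c * n| := not_le.2 h2
        rw [if_pos h2, if_neg h3]; simp
      · have h3 : L * (√(n : ℝ) * Real.log n) ≤ |(m : ℝ) - c * n| := not_lt.1 h2
        rw [if_neg h2, if_pos h3]; ring
    rw [e1, div_le_iff₀ hZn]
    exact h1
  rw [Real.dist_eq, hDD]
  have hD : 0 < (c * (n : ℝ)) ^ g + τ := by positivity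
  have h4 : 2 * (∑ m ∈ range (n + 1), w m * φ m) * ((c * n) ^ g + τ) ≤
      2 * Real.exp (-(1 * Real.log n ^ 2)) * ((c * n) ^ g + τ) := by gcongr
  linarith

end Pool.Agent.D0H81.FM
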